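import Pool.Agent.ISB.StmtsC

/-!
# Squad ISB, row FIN (helper45): the theorem
-/

set_option autoImplicit false

namespace Pool.Agent.ISB.H45

open Pool.Agent.ISB
open scoped Classical commutatorElement

/-- Row FIN of `Pool/Agent/ISB/StmtsC.lean`. -/
theorem fin (clb : ClbStmt) (fpf : FpfStmt) : FinStmt := by
  intro r n hr hodd
  obtain ⟨c, hc⟩ := clb r n hr hodd
  obtain ⟨A, hA⟩ := pow_unbounded_of_one_lt (r ^ (2 ^ c - 1)) (one_lt_two : 1 < 2)
  refine ⟨A, ?_⟩
  intro a ha G Ω _ _ _ _ _ P hP hPn htr hcard horb hx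
  obtain ⟨x, hx⟩ := hx
  by_contra hcon
  push Not at hcon
  have hall : ∀ y : Ω, (MulAction.stabilizer G y ⊓ P).lowerCentralSeries n = ⊥ := by
    intro y
    obtain ⟨g, rfl⟩ := htr x y
    have hmap : MulAction.stabilizer G (g • x) ⊓ P =
        (MulAction.stabilizer G x ⊓ P).map (MulAut.conj g).toMonoidHom := by
      have hP' : P.map (MulAut.conj g).toMonoidHom = P := by
        apply le_antisymm
        · rintro _ ⟨h, hh, rfl⟩
          exact hPn.conj_mem h hh g
        · intro h hh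
          refine ⟨g⁻¹ * h * g⁻¹⁻¹, hPn.conj_mem h hh g⁻¹, ?_⟩
          show g * (g⁻¹ * h * g⁻¹⁻¹) * g⁻¹ = h
          group
      rw [Subgroup.map_inf _ _ _ (MulAut.conj g).injective, hP',
        MulAction.stabilizer_smul_eq_stabilizer_map_conj]
    rw [hmap, ← Subgroup.map_lowerCentralSeries, hx, Subgroup.map_bot]
  have hlc : P.lowerCentralSeries c = ⊥ :=
    hc G Ω a P hP hPn htr hcard horb hall hcon
  have hlt : r ^ (2 ^ c - 1) < 2 ^ a :=
    lt_of_lt_of_le hA (Nat.pow_le_pow_right (by norm_num) ha)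
  obtain ⟨g, hg, hfp⟩ := fpf G Ω r a c P hr.pos hcard horb hlc hlt
  obtain ⟨y, hy⟩ := hcon g hg
  exact hfp y hy

end Pool.Agent.ISB.H45
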